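import Pool.Agent.V11327.KWprob

/-!
# The `k`-width of a set of `n` random intervals is asymptotically `n / (k + 1)`

Lower bound: intervals with left endpoint at most `1 / (k + 1)` can only be children of intervals with
right endpoint at most `1 / (k + 1)`. Upper bound: split the index set into many blocks of equal length
and match the intervals of each block, as children, to intervals of the previous block by Hall's theorem
with deficiency.
-/

set_option autoImplicit false

open MeasureTheory ProbabilityTheory Filter Topology
open Pool.Agent.V11327.KW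

namespace Pool.Agent.Results.MP_6cdded_pr.KWidthSet

/-- For every `k`, if `X 0, X 1, …` are independent and uniform on the unit square, then
`E [k-wd (W_n)] / n → 1 / (k + 1)`, where `W_n` is the set of intervals with endpoints `X 0, …, X (n-1)`. -/
theorem result (k : ℕ) {Ω : Type} [MeasurableSpace Ω] (P : Measure Ω) [IsProbabilityMeasure P]
    (X : ℕ → Ω → ℝ × ℝ) (hX : ∀ i, Measurable (X i)) (hind : iIndepFun X P)
    (hlaw : ∀ i, P.map (X i) =
      (volume.restrict (Set.Ioo (0 : ℝ) 1)).prod (volume.restrict (Set.Ioo (0 : ℝ) 1))) :
    Tendsto (fun n : ℕ => (∫ ω, (kwd k (setRel n (fun i => X i ω)) : ℝ) ∂P) / n) atTop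
      (𝓝 (1 / ((k : ℝ) + 1))) := by
  refine lim_between P X hX hind hlaw k (fun n => setRel n) (set_lower P X hX hind hlaw k) ?_
  intro n
  refine integral_mono (kwd_integrable P X hX k n (setRel n) (rel_meas_set n))
    (kwd_integrable P X hX k n (seqRel n) (rel_meas_seq n)) fun ω => ?_
  have h1 : kwd k (setRel n (fun i => X i ω)) ≤ kwd k (seqRel n (fun i => X i ω)) :=
    kwd_mono k (seqRel n (fun i => X i ω)) (setRel n (fun i => X i ω)) fun a b h => h.2
  exact Nat.cast_le.2 h1

end Pool.Agent.Results.MP_6cdded_pr.KWidthSet
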